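import Mathlib

/-!
# A stable isometry for the Hermitian form of Hambleton and Teichner

Explicit matrices over `ℤ[t, t⁻¹]` (`s = t⁻¹`) which show that the orthogonal sum of the form of
Hambleton and Teichner and `H₂` is isometric to the sum of the (extended) augmentation and `H₂`.
-/

set_option autoImplicit false

namespace Pool.Agent.Y142.HT

variable {R : Type*} [CommRing R]

/-- the isometry -/
def M6 (t s : R) : Matrix (Fin 6) (Fin 6) R :=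
  !![1, 0, 0, 0, -2 * t + 2, -t ^ 2 + 1;
    0, 1, 0, 0, -2 * t + 2, -t ^ 2 + 1;
    0, 0, 1, 0, 3 * t - 1 - 2 * s, 2 * t ^ 2 - 1 - s;
    0, 0, 0, 1, 3 * t - 1 - 2 * s, 2 * t ^ 2 - 1 - s;
    1, 1, 0, 0, 4, t + 2;
    t + 3 + s, t + 3 + s, 1 - s, 1 - s, 15 + 2 * s + 4 * s ^ 2, 4 * t + 8 + 2 * s + 2 * s ^ 2]

/-- its inverse -/
def P6 (t s : R) : Matrix (Fin 6) (Fin 6) R :=
  !![-5 * t + 11 - 5 * s, -5 * t + 10 - 5 * s, -2 * t + 4 - 2 * s, -2 * t + 4 - 2 * s, -2 * t ^ 2 + t - 6 + 7 * s, 2 * t - 2;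
    -5 * t + 10 - 5 * s, -5 * t + 11 - 5 * s, -2 * t + 4 - 2 * s, -2 * t + 4 - 2 * s, -2 * t ^ 2 + t - 6 + 7 * s, 2 * t - 2;
    5 * t ^ 2 - 8 * t + 6 - 8 * s + 5 * s ^ 2, 5 * t ^ 2 - 8 * t + 6 - 8 * s + 5 * s ^ 2, 2 * t ^ 2 - 3 * t + 3 - 3 * s + 2 * s ^ 2, 2 * t ^ 2 - 3 * t + 2 - 3 * s + 2 * s ^ 2, 2 * t ^ 3 + 8 * t - 6 + 3 * s - 7 * s ^ 2, -2 * t ^ 2 + t - 1 + 2 * s;
    5 * t ^ 2 - 8 * t + 6 - 8 * s + 5 * s ^ 2, 5 * t ^ 2 - 8 * t + 6 - 8 * s + 5 * s ^ 2, 2 * t ^ 2 - 3 * t + 2 - 3 * s + 2 * s ^ 2, 2 * t ^ 2 - 3 * t + 3 - 3 * s + 2 * s ^ 2, 2 * t ^ 3 + 8 * t - 6 + 3 * s - 7 * s ^ 2, -2 * t ^ 2 + t - 1 + 2 * s;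
    5 * t - 3 - 3 * s, 5 * t - 3 - 3 * s, 2 * t - 1 - s, 2 * t - 1 - s, 2 * t ^ 2 + 2 * t + 8 + 4 * s, -2 * t - 1;
    -10 + 11 * s, -10 + 11 * s, -4 + 4 * s, -4 + 4 * s, -4 * t - 2 - 15 * s, 4]

/-- the augmentation of the form, plus `H₂` -/
def G6 (t s : R) : Matrix (Fin 6) (Fin 6) R :=
  !![7, 6, 3, 2, 0, 0;
    6, 7, 2, 3, 0, 0;
    3, 2, 2, 0, 0, 0;
    2, 3, 0, 2, 0, 0;
    0, 0, 0, 0, 0, t - 1;
    0, 0, 0, 0, -1 + s, 0]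

/-- the form, plus `H₂` -/
def L6 (t s : R) : Matrix (Fin 6) (Fin 6) R :=
  !![t ^ 2 + t + 3 + s + s ^ 2, t ^ 2 + t + 2 + s + s ^ 2, t + 1 + s, t + s, 0, 0;
    t ^ 2 + t + 2 + s + s ^ 2, t ^ 2 + t + 3 + s + s ^ 2, t + s, t + 1 + s, 0, 0;
    t + 1 + s, t + s, 2, 0, 0, 0;
    t + s, t + 1 + s, 0, 2, 0, 0;
    0, 0, 0, 0, 0, t - 1;
    0, 0, 0, 0, -1 + s, 0]

/-- `G6 * M6` -/
def N6 (t s : R) : Matrix (Fin 6) (Fin 6) R :=
  !![7, 6, 3, 2, -11 * t + 21 - 10 * s, -3 * t ^ 2 + 8 - 5 * s;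
    6, 7, 2, 3, -11 * t + 21 - 10 * s, -3 * t ^ 2 + 8 - 5 * s;
    3, 2, 2, 0, -4 * t + 8 - 4 * s, -t ^ 2 + 3 - 2 * s;
    2, 3, 0, 2, -4 * t + 8 - 4 * s, -t ^ 2 + 3 - 2 * s;
    t ^ 2 + 2 * t - 2 - s, t ^ 2 + 2 * t - 2 - s, t - 2 + s, t - 2 + s, 15 * t - 13 + 2 * s - 4 * s ^ 2, 4 * t ^ 2 + 4 * t - 6 - 2 * s ^ 2;
    -1 + s, -1 + s, 0, 0, -4 + 4 * s, -t - 1 + 2 * s]

theorem G6_mul_M6 {t s : R} (h : t * s = 1) : G6 t s * M6 t s = N6 t s := by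
  ext i j
  rw [Matrix.mul_apply, Fin.sum_univ_six]
  fin_cases i <;> fin_cases j
  · show (7) * (1) + (6) * (0) + (3) * (0) + (2) * (0) + (0) * (1) + (0) * (t + 3 + s) = 7
    linear_combination (0) * h
  · show (7) * (0) + (6) * (1) + (3) * (0) + (2) * (0) + (0) * (1) + (0) * (t + 3 + s) = 6
    linear_combination (0) * h
  · show (7) * (0) + (6) * (0) + (3) * (1) + (2) * (0) + (0) * (0) + (0) * (1 - s) = 3
    linear_combination (0) * h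
  · show (7) * (0) + (6) * (0) + (3) * (0) + (2) * (1) + (0) * (0) + (0) * (1 - s) = 2
    linear_combination (0) * h
  · show (7) * (-2 * t + 2) + (6) * (-2 * t + 2) + (3) * (3 * t - 1 - 2 * s) + (2) * (3 * t - 1 - 2 * s) + (0) * (4) + (0) * (15 + 2 * s + 4 * s ^ 2) = -11 * t + 21 - 10 * s
    linear_combination (0) * h
  · show (7) * (-t ^ 2 + 1) + (6) * (-t ^ 2 + 1) + (3) * (2 * t ^ 2 - 1 - s) + (2) * (2 * t ^ 2 - 1 - s) + (0) * (t + 2) + (0) * (4 * t + 8 + 2 * s + 2 * s ^ 2) = -3 * t ^ 2 + 8 - 5 * s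
    linear_combination (0) * h
  · show (6) * (1) + (7) * (0) + (2) * (0) + (3) * (0) + (0) * (1) + (0) * (t + 3 + s) = 6
    linear_combination (0) * h
  · show (6) * (0) + (7) * (1) + (2) * (0) + (3) * (0) + (0) * (1) + (0) * (t + 3 + s) = 7
    linear_combination (0) * h
  · show (6) * (0) + (7) * (0) + (2) * (1) + (3) * (0) + (0) * (0) + (0) * (1 - s) = 2
    linear_combination (0) * h
  · show (6) * (0) + (7) * (0) + (2) * (0) + (3) * (1) + (0) * (0) + (0) * (1 - s) = 3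
    linear_combination (0) * h
  · show (6) * (-2 * t + 2) + (7) * (-2 * t + 2) + (2) * (3 * t - 1 - 2 * s) + (3) * (3 * t - 1 - 2 * s) + (0) * (4) + (0) * (15 + 2 * s + 4 * s ^ 2) = -11 * t + 21 - 10 * s
    linear_combination (0) * h
  · show (6) * (-t ^ 2 + 1) + (7) * (-t ^ 2 + 1) + (2) * (2 * t ^ 2 - 1 - s) + (3) * (2 * t ^ 2 - 1 - s) + (0) * (t + 2) + (0) * (4 * t + 8 + 2 * s + 2 * s ^ 2) = -3 * t ^ 2 + 8 - 5 * s
    linear_combination (0) * h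
  · show (3) * (1) + (2) * (0) + (2) * (0) + (0) * (0) + (0) * (1) + (0) * (t + 3 + s) = 3
    linear_combination (0) * h
  · show (3) * (0) + (2) * (1) + (2) * (0) + (0) * (0) + (0) * (1) + (0) * (t + 3 + s) = 2
    linear_combination (0) * h
  · show (3) * (0) + (2) * (0) + (2) * (1) + (0) * (0) + (0) * (0) + (0) * (1 - s) = 2
    linear_combination (0) * h
  · show (3) * (0) + (2) * (0) + (2) * (0) + (0) * (1) + (0) * (0) + (0) * (1 - s) = 0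
    linear_combination (0) * h
  · show (3) * (-2 * t + 2) + (2) * (-2 * t + 2) + (2) * (3 * t - 1 - 2 * s) + (0) * (3 * t - 1 - 2 * s) + (0) * (4) + (0) * (15 + 2 * s + 4 * s ^ 2) = -4 * t + 8 - 4 * s
    linear_combination (0) * h
  · show (3) * (-t ^ 2 + 1) + (2) * (-t ^ 2 + 1) + (2) * (2 * t ^ 2 - 1 - s) + (0) * (2 * t ^ 2 - 1 - s) + (0) * (t + 2) + (0) * (4 * t + 8 + 2 * s + 2 * s ^ 2) = -t ^ 2 + 3 - 2 * s
    linear_combination (0) * h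
  · show (2) * (1) + (3) * (0) + (0) * (0) + (2) * (0) + (0) * (1) + (0) * (t + 3 + s) = 2
    linear_combination (0) * h
  · show (2) * (0) + (3) * (1) + (0) * (0) + (2) * (0) + (0) * (1) + (0) * (t + 3 + s) = 3
    linear_combination (0) * h
  · show (2) * (0) + (3) * (0) + (0) * (1) + (2) * (0) + (0) * (0) + (0) * (1 - s) = 0
    linear_combination (0) * h
  · show (2) * (0) + (3) * (0) + (0) * (0) + (2) * (1) + (0) * (0) + (0) * (1 - s) = 2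
    linear_combination (0) * h
  · show (2) * (-2 * t + 2) + (3) * (-2 * t + 2) + (0) * (3 * t - 1 - 2 * s) + (2) * (3 * t - 1 - 2 * s) + (0) * (4) + (0) * (15 + 2 * s + 4 * s ^ 2) = -4 * t + 8 - 4 * s
    linear_combination (0) * h
  · show (2) * (-t ^ 2 + 1) + (3) * (-t ^ 2 + 1) + (0) * (2 * t ^ 2 - 1 - s) + (2) * (2 * t ^ 2 - 1 - s) + (0) * (t + 2) + (0) * (4 * t + 8 + 2 * s + 2 * s ^ 2) = -t ^ 2 + 3 - 2 * s
    linear_combination (0) * h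
  · show (0) * (1) + (0) * (0) + (0) * (0) + (0) * (0) + (0) * (1) + (t - 1) * (t + 3 + s) = t ^ 2 + 2 * t - 2 - s
    linear_combination (1) * h
  · show (0) * (0) + (0) * (1) + (0) * (0) + (0) * (0) + (0) * (1) + (t - 1) * (t + 3 + s) = t ^ 2 + 2 * t - 2 - s
    linear_combination (1) * h
  · show (0) * (0) + (0) * (0) + (0) * (1) + (0) * (0) + (0) * (0) + (t - 1) * (1 - s) = t - 2 + s
    linear_combination (-1) * h
  · show (0) * (0) + (0) * (0) + (0) * (0) + (0) * (1) + (0) * (0) + (t - 1) * (1 - s) = t - 2 + s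
    linear_combination (-1) * h
  · show (0) * (-2 * t + 2) + (0) * (-2 * t + 2) + (0) * (3 * t - 1 - 2 * s) + (0) * (3 * t - 1 - 2 * s) + (0) * (4) + (t - 1) * (15 + 2 * s + 4 * s ^ 2) = 15 * t - 13 + 2 * s - 4 * s ^ 2
    linear_combination (2 + 4 * s) * h
  · show (0) * (-t ^ 2 + 1) + (0) * (-t ^ 2 + 1) + (0) * (2 * t ^ 2 - 1 - s) + (0) * (2 * t ^ 2 - 1 - s) + (0) * (t + 2) + (t - 1) * (4 * t + 8 + 2 * s + 2 * s ^ 2) = 4 * t ^ 2 + 4 * t - 6 - 2 * s ^ 2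
    linear_combination (2 + 2 * s) * h
  · show (0) * (1) + (0) * (0) + (0) * (0) + (0) * (0) + (-1 + s) * (1) + (0) * (t + 3 + s) = -1 + s
    linear_combination (0) * h
  · show (0) * (0) + (0) * (1) + (0) * (0) + (0) * (0) + (-1 + s) * (1) + (0) * (t + 3 + s) = -1 + s
    linear_combination (0) * h
  · show (0) * (0) + (0) * (0) + (0) * (1) + (0) * (0) + (-1 + s) * (0) + (0) * (1 - s) = 0
    linear_combination (0) * h
  · show (0) * (0) + (0) * (0) + (0) * (0) + (0) * (1) + (-1 + s) * (0) + (0) * (1 - s) = 0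
    linear_combination (0) * h
  · show (0) * (-2 * t + 2) + (0) * (-2 * t + 2) + (0) * (3 * t - 1 - 2 * s) + (0) * (3 * t - 1 - 2 * s) + (-1 + s) * (4) + (0) * (15 + 2 * s + 4 * s ^ 2) = -4 + 4 * s
    linear_combination (0) * h
  · show (0) * (-t ^ 2 + 1) + (0) * (-t ^ 2 + 1) + (0) * (2 * t ^ 2 - 1 - s) + (0) * (2 * t ^ 2 - 1 - s) + (-1 + s) * (t + 2) + (0) * (4 * t + 8 + 2 * s + 2 * s ^ 2) = -t - 1 + 2 * s
    linear_combination (1) * h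

theorem M6T_mul_N6 {t s : R} (h : t * s = 1) : (M6 s t).transpose * N6 t s = L6 t s := by
  ext i j
  rw [Matrix.mul_apply, Fin.sum_univ_six]
  fin_cases i <;> fin_cases j
  · show (1) * (7) + (0) * (6) + (0) * (3) + (0) * (2) + (1) * (t ^ 2 + 2 * t - 2 - s) + (s + 3 + t) * (-1 + s) = t ^ 2 + t + 3 + s + s ^ 2
    linear_combination (1) * h
  · show (1) * (6) + (0) * (7) + (0) * (2) + (0) * (3) + (1) * (t ^ 2 + 2 * t - 2 - s) + (s + 3 + t) * (-1 + s) = t ^ 2 + t + 2 + s + s ^ 2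
    linear_combination (1) * h
  · show (1) * (3) + (0) * (2) + (0) * (2) + (0) * (0) + (1) * (t - 2 + s) + (s + 3 + t) * (0) = t + 1 + s
    linear_combination (0) * h
  · show (1) * (2) + (0) * (3) + (0) * (0) + (0) * (2) + (1) * (t - 2 + s) + (s + 3 + t) * (0) = t + s
    linear_combination (0) * h
  · show (1) * (-11 * t + 21 - 10 * s) + (0) * (-11 * t + 21 - 10 * s) + (0) * (-4 * t + 8 - 4 * s) + (0) * (-4 * t + 8 - 4 * s) + (1) * (15 * t - 13 + 2 * s - 4 * s ^ 2) + (s + 3 + t) * (-4 + 4 * s) = 0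
    linear_combination (4) * h
  · show (1) * (-3 * t ^ 2 + 8 - 5 * s) + (0) * (-3 * t ^ 2 + 8 - 5 * s) + (0) * (-t ^ 2 + 3 - 2 * s) + (0) * (-t ^ 2 + 3 - 2 * s) + (1) * (4 * t ^ 2 + 4 * t - 6 - 2 * s ^ 2) + (s + 3 + t) * (-t - 1 + 2 * s) = 0
    linear_combination (1) * h
  · show (0) * (7) + (1) * (6) + (0) * (3) + (0) * (2) + (1) * (t ^ 2 + 2 * t - 2 - s) + (s + 3 + t) * (-1 + s) = t ^ 2 + t + 2 + s + s ^ 2
    linear_combination (1) * h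
  · show (0) * (6) + (1) * (7) + (0) * (2) + (0) * (3) + (1) * (t ^ 2 + 2 * t - 2 - s) + (s + 3 + t) * (-1 + s) = t ^ 2 + t + 3 + s + s ^ 2
    linear_combination (1) * h
  · show (0) * (3) + (1) * (2) + (0) * (2) + (0) * (0) + (1) * (t - 2 + s) + (s + 3 + t) * (0) = t + s
    linear_combination (0) * h
  · show (0) * (2) + (1) * (3) + (0) * (0) + (0) * (2) + (1) * (t - 2 + s) + (s + 3 + t) * (0) = t + 1 + s
    linear_combination (0) * h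
  · show (0) * (-11 * t + 21 - 10 * s) + (1) * (-11 * t + 21 - 10 * s) + (0) * (-4 * t + 8 - 4 * s) + (0) * (-4 * t + 8 - 4 * s) + (1) * (15 * t - 13 + 2 * s - 4 * s ^ 2) + (s + 3 + t) * (-4 + 4 * s) = 0
    linear_combination (4) * h
  · show (0) * (-3 * t ^ 2 + 8 - 5 * s) + (1) * (-3 * t ^ 2 + 8 - 5 * s) + (0) * (-t ^ 2 + 3 - 2 * s) + (0) * (-t ^ 2 + 3 - 2 * s) + (1) * (4 * t ^ 2 + 4 * t - 6 - 2 * s ^ 2) + (s + 3 + t) * (-t - 1 + 2 * s) = 0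
    linear_combination (1) * h
  · show (0) * (7) + (0) * (6) + (1) * (3) + (0) * (2) + (0) * (t ^ 2 + 2 * t - 2 - s) + (1 - t) * (-1 + s) = t + 1 + s
    linear_combination (-1) * h
  · show (0) * (6) + (0) * (7) + (1) * (2) + (0) * (3) + (0) * (t ^ 2 + 2 * t - 2 - s) + (1 - t) * (-1 + s) = t + s
    linear_combination (-1) * h
  · show (0) * (3) + (0) * (2) + (1) * (2) + (0) * (0) + (0) * (t - 2 + s) + (1 - t) * (0) = 2
    linear_combination (0) * h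
  · show (0) * (2) + (0) * (3) + (1) * (0) + (0) * (2) + (0) * (t - 2 + s) + (1 - t) * (0) = 0
    linear_combination (0) * h
  · show (0) * (-11 * t + 21 - 10 * s) + (0) * (-11 * t + 21 - 10 * s) + (1) * (-4 * t + 8 - 4 * s) + (0) * (-4 * t + 8 - 4 * s) + (0) * (15 * t - 13 + 2 * s - 4 * s ^ 2) + (1 - t) * (-4 + 4 * s) = 0
    linear_combination (-4) * h
  · show (0) * (-3 * t ^ 2 + 8 - 5 * s) + (0) * (-3 * t ^ 2 + 8 - 5 * s) + (1) * (-t ^ 2 + 3 - 2 * s) + (0) * (-t ^ 2 + 3 - 2 * s) + (0) * (4 * t ^ 2 + 4 * t - 6 - 2 * s ^ 2) + (1 - t) * (-t - 1 + 2 * s) = 0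
    linear_combination (-2) * h
  · show (0) * (7) + (0) * (6) + (0) * (3) + (1) * (2) + (0) * (t ^ 2 + 2 * t - 2 - s) + (1 - t) * (-1 + s) = t + s
    linear_combination (-1) * h
  · show (0) * (6) + (0) * (7) + (0) * (2) + (1) * (3) + (0) * (t ^ 2 + 2 * t - 2 - s) + (1 - t) * (-1 + s) = t + 1 + s
    linear_combination (-1) * h
  · show (0) * (3) + (0) * (2) + (0) * (2) + (1) * (0) + (0) * (t - 2 + s) + (1 - t) * (0) = 0
    linear_combination (0) * h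
  · show (0) * (2) + (0) * (3) + (0) * (0) + (1) * (2) + (0) * (t - 2 + s) + (1 - t) * (0) = 2
    linear_combination (0) * h
  · show (0) * (-11 * t + 21 - 10 * s) + (0) * (-11 * t + 21 - 10 * s) + (0) * (-4 * t + 8 - 4 * s) + (1) * (-4 * t + 8 - 4 * s) + (0) * (15 * t - 13 + 2 * s - 4 * s ^ 2) + (1 - t) * (-4 + 4 * s) = 0
    linear_combination (-4) * h
  · show (0) * (-3 * t ^ 2 + 8 - 5 * s) + (0) * (-3 * t ^ 2 + 8 - 5 * s) + (0) * (-t ^ 2 + 3 - 2 * s) + (1) * (-t ^ 2 + 3 - 2 * s) + (0) * (4 * t ^ 2 + 4 * t - 6 - 2 * s ^ 2) + (1 - t) * (-t - 1 + 2 * s) = 0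
    linear_combination (-2) * h
  · show (-2 * s + 2) * (7) + (-2 * s + 2) * (6) + (3 * s - 1 - 2 * t) * (3) + (3 * s - 1 - 2 * t) * (2) + (4) * (t ^ 2 + 2 * t - 2 - s) + (15 + 2 * t + 4 * t ^ 2) * (-1 + s) = 0
    linear_combination (4 * t + 2) * h
  · show (-2 * s + 2) * (6) + (-2 * s + 2) * (7) + (3 * s - 1 - 2 * t) * (2) + (3 * s - 1 - 2 * t) * (3) + (4) * (t ^ 2 + 2 * t - 2 - s) + (15 + 2 * t + 4 * t ^ 2) * (-1 + s) = 0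
    linear_combination (4 * t + 2) * h
  · show (-2 * s + 2) * (3) + (-2 * s + 2) * (2) + (3 * s - 1 - 2 * t) * (2) + (3 * s - 1 - 2 * t) * (0) + (4) * (t - 2 + s) + (15 + 2 * t + 4 * t ^ 2) * (0) = 0
    linear_combination (0) * h
  · show (-2 * s + 2) * (2) + (-2 * s + 2) * (3) + (3 * s - 1 - 2 * t) * (0) + (3 * s - 1 - 2 * t) * (2) + (4) * (t - 2 + s) + (15 + 2 * t + 4 * t ^ 2) * (0) = 0
    linear_combination (0) * h
  · show (-2 * s + 2) * (-11 * t + 21 - 10 * s) + (-2 * s + 2) * (-11 * t + 21 - 10 * s) + (3 * s - 1 - 2 * t) * (-4 * t + 8 - 4 * s) + (3 * s - 1 - 2 * t) * (-4 * t + 8 - 4 * s) + (4) * (15 * t - 13 + 2 * s - 4 * s ^ 2) + (15 + 2 * t + 4 * t ^ 2) * (-4 + 4 * s) = 0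
    linear_combination (16 * t + 44) * h
  · show (-2 * s + 2) * (-3 * t ^ 2 + 8 - 5 * s) + (-2 * s + 2) * (-3 * t ^ 2 + 8 - 5 * s) + (3 * s - 1 - 2 * t) * (-t ^ 2 + 3 - 2 * s) + (3 * s - 1 - 2 * t) * (-t ^ 2 + 3 - 2 * s) + (4) * (4 * t ^ 2 + 4 * t - 6 - 2 * s ^ 2) + (15 + 2 * t + 4 * t ^ 2) * (-t - 1 + 2 * s) = t - 1
    linear_combination (14 * t + 12) * h
  · show (-s ^ 2 + 1) * (7) + (-s ^ 2 + 1) * (6) + (2 * s ^ 2 - 1 - t) * (3) + (2 * s ^ 2 - 1 - t) * (2) + (s + 2) * (t ^ 2 + 2 * t - 2 - s) + (4 * s + 8 + 2 * t + 2 * t ^ 2) * (-1 + s) = 0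
    linear_combination (3 * t + 4) * h
  · show (-s ^ 2 + 1) * (6) + (-s ^ 2 + 1) * (7) + (2 * s ^ 2 - 1 - t) * (2) + (2 * s ^ 2 - 1 - t) * (3) + (s + 2) * (t ^ 2 + 2 * t - 2 - s) + (4 * s + 8 + 2 * t + 2 * t ^ 2) * (-1 + s) = 0
    linear_combination (3 * t + 4) * h
  · show (-s ^ 2 + 1) * (3) + (-s ^ 2 + 1) * (2) + (2 * s ^ 2 - 1 - t) * (2) + (2 * s ^ 2 - 1 - t) * (0) + (s + 2) * (t - 2 + s) + (4 * s + 8 + 2 * t + 2 * t ^ 2) * (0) = 0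
    linear_combination (1) * h
  · show (-s ^ 2 + 1) * (2) + (-s ^ 2 + 1) * (3) + (2 * s ^ 2 - 1 - t) * (0) + (2 * s ^ 2 - 1 - t) * (2) + (s + 2) * (t - 2 + s) + (4 * s + 8 + 2 * t + 2 * t ^ 2) * (0) = 0
    linear_combination (1) * h
  · show (-s ^ 2 + 1) * (-11 * t + 21 - 10 * s) + (-s ^ 2 + 1) * (-11 * t + 21 - 10 * s) + (2 * s ^ 2 - 1 - t) * (-4 * t + 8 - 4 * s) + (2 * s ^ 2 - 1 - t) * (-4 * t + 8 - 4 * s) + (s + 2) * (15 * t - 13 + 2 * s - 4 * s ^ 2) + (4 * s + 8 + 2 * t + 2 * t ^ 2) * (-4 + 4 * s) = -1 + s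
    linear_combination (8 * t + 31 + 6 * s) * h
  · show (-s ^ 2 + 1) * (-3 * t ^ 2 + 8 - 5 * s) + (-s ^ 2 + 1) * (-3 * t ^ 2 + 8 - 5 * s) + (2 * s ^ 2 - 1 - t) * (-t ^ 2 + 3 - 2 * s) + (2 * s ^ 2 - 1 - t) * (-t ^ 2 + 3 - 2 * s) + (s + 2) * (4 * t ^ 2 + 4 * t - 6 - 2 * s ^ 2) + (4 * s + 8 + 2 * t + 2 * t ^ 2) * (-t - 1 + 2 * s) = 0
    linear_combination (8 * t + 2 * t * s + 10) * h

theorem M6_mul_P6 {t s : R} (h : t * s = 1) : M6 t s * P6 t s = 1 := by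
  ext i j
  rw [Matrix.mul_apply, Fin.sum_univ_six]
  fin_cases i <;> fin_cases j
  · show (1) * (-5 * t + 11 - 5 * s) + (0) * (-5 * t + 10 - 5 * s) + (0) * (5 * t ^ 2 - 8 * t + 6 - 8 * s + 5 * s ^ 2) + (0) * (5 * t ^ 2 - 8 * t + 6 - 8 * s + 5 * s ^ 2) + (-2 * t + 2) * (5 * t - 3 - 3 * s) + (-t ^ 2 + 1) * (-10 + 11 * s) = 1
    linear_combination (-11 * t + 6) * h
  · show (1) * (-5 * t + 10 - 5 * s) + (0) * (-5 * t + 11 - 5 * s) + (0) * (5 * t ^ 2 - 8 * t + 6 - 8 * s + 5 * s ^ 2) + (0) * (5 * t ^ 2 - 8 * t + 6 - 8 * s + 5 * s ^ 2) + (-2 * t + 2) * (5 * t - 3 - 3 * s) + (-t ^ 2 + 1) * (-10 + 11 * s) = 0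
    linear_combination (-11 * t + 6) * h
  · show (1) * (-2 * t + 4 - 2 * s) + (0) * (-2 * t + 4 - 2 * s) + (0) * (2 * t ^ 2 - 3 * t + 3 - 3 * s + 2 * s ^ 2) + (0) * (2 * t ^ 2 - 3 * t + 2 - 3 * s + 2 * s ^ 2) + (-2 * t + 2) * (2 * t - 1 - s) + (-t ^ 2 + 1) * (-4 + 4 * s) = 0
    linear_combination (-4 * t + 2) * h
  · show (1) * (-2 * t + 4 - 2 * s) + (0) * (-2 * t + 4 - 2 * s) + (0) * (2 * t ^ 2 - 3 * t + 2 - 3 * s + 2 * s ^ 2) + (0) * (2 * t ^ 2 - 3 * t + 3 - 3 * s + 2 * s ^ 2) + (-2 * t + 2) * (2 * t - 1 - s) + (-t ^ 2 + 1) * (-4 + 4 * s) = 0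
    linear_combination (-4 * t + 2) * h
  · show (1) * (-2 * t ^ 2 + t - 6 + 7 * s) + (0) * (-2 * t ^ 2 + t - 6 + 7 * s) + (0) * (2 * t ^ 3 + 8 * t - 6 + 3 * s - 7 * s ^ 2) + (0) * (2 * t ^ 3 + 8 * t - 6 + 3 * s - 7 * s ^ 2) + (-2 * t + 2) * (2 * t ^ 2 + 2 * t + 8 + 4 * s) + (-t ^ 2 + 1) * (-4 * t - 2 - 15 * s) = 0
    linear_combination (15 * t - 8) * h
  · show (1) * (2 * t - 2) + (0) * (2 * t - 2) + (0) * (-2 * t ^ 2 + t - 1 + 2 * s) + (0) * (-2 * t ^ 2 + t - 1 + 2 * s) + (-2 * t + 2) * (-2 * t - 1) + (-t ^ 2 + 1) * (4) = 0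
    linear_combination (0) * h
  · show (0) * (-5 * t + 11 - 5 * s) + (1) * (-5 * t + 10 - 5 * s) + (0) * (5 * t ^ 2 - 8 * t + 6 - 8 * s + 5 * s ^ 2) + (0) * (5 * t ^ 2 - 8 * t + 6 - 8 * s + 5 * s ^ 2) + (-2 * t + 2) * (5 * t - 3 - 3 * s) + (-t ^ 2 + 1) * (-10 + 11 * s) = 0
    linear_combination (-11 * t + 6) * h
  · show (0) * (-5 * t + 10 - 5 * s) + (1) * (-5 * t + 11 - 5 * s) + (0) * (5 * t ^ 2 - 8 * t + 6 - 8 * s + 5 * s ^ 2) + (0) * (5 * t ^ 2 - 8 * t + 6 - 8 * s + 5 * s ^ 2) + (-2 * t + 2) * (5 * t - 3 - 3 * s) + (-t ^ 2 + 1) * (-10 + 11 * s) = 1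
    linear_combination (-11 * t + 6) * h
  · show (0) * (-2 * t + 4 - 2 * s) + (1) * (-2 * t + 4 - 2 * s) + (0) * (2 * t ^ 2 - 3 * t + 3 - 3 * s + 2 * s ^ 2) + (0) * (2 * t ^ 2 - 3 * t + 2 - 3 * s + 2 * s ^ 2) + (-2 * t + 2) * (2 * t - 1 - s) + (-t ^ 2 + 1) * (-4 + 4 * s) = 0
    linear_combination (-4 * t + 2) * h
  · show (0) * (-2 * t + 4 - 2 * s) + (1) * (-2 * t + 4 - 2 * s) + (0) * (2 * t ^ 2 - 3 * t + 2 - 3 * s + 2 * s ^ 2) + (0) * (2 * t ^ 2 - 3 * t + 3 - 3 * s + 2 * s ^ 2) + (-2 * t + 2) * (2 * t - 1 - s) + (-t ^ 2 + 1) * (-4 + 4 * s) = 0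
    linear_combination (-4 * t + 2) * h
  · show (0) * (-2 * t ^ 2 + t - 6 + 7 * s) + (1) * (-2 * t ^ 2 + t - 6 + 7 * s) + (0) * (2 * t ^ 3 + 8 * t - 6 + 3 * s - 7 * s ^ 2) + (0) * (2 * t ^ 3 + 8 * t - 6 + 3 * s - 7 * s ^ 2) + (-2 * t + 2) * (2 * t ^ 2 + 2 * t + 8 + 4 * s) + (-t ^ 2 + 1) * (-4 * t - 2 - 15 * s) = 0
    linear_combination (15 * t - 8) * h
  · show (0) * (2 * t - 2) + (1) * (2 * t - 2) + (0) * (-2 * t ^ 2 + t - 1 + 2 * s) + (0) * (-2 * t ^ 2 + t - 1 + 2 * s) + (-2 * t + 2) * (-2 * t - 1) + (-t ^ 2 + 1) * (4) = 0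
    linear_combination (0) * h
  · show (0) * (-5 * t + 11 - 5 * s) + (0) * (-5 * t + 10 - 5 * s) + (1) * (5 * t ^ 2 - 8 * t + 6 - 8 * s + 5 * s ^ 2) + (0) * (5 * t ^ 2 - 8 * t + 6 - 8 * s + 5 * s ^ 2) + (3 * t - 1 - 2 * s) * (5 * t - 3 - 3 * s) + (2 * t ^ 2 - 1 - s) * (-10 + 11 * s) = 0
    linear_combination (22 * t - 19) * h
  · show (0) * (-5 * t + 10 - 5 * s) + (0) * (-5 * t + 11 - 5 * s) + (1) * (5 * t ^ 2 - 8 * t + 6 - 8 * s + 5 * s ^ 2) + (0) * (5 * t ^ 2 - 8 * t + 6 - 8 * s + 5 * s ^ 2) + (3 * t - 1 - 2 * s) * (5 * t - 3 - 3 * s) + (2 * t ^ 2 - 1 - s) * (-10 + 11 * s) = 0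
    linear_combination (22 * t - 19) * h
  · show (0) * (-2 * t + 4 - 2 * s) + (0) * (-2 * t + 4 - 2 * s) + (1) * (2 * t ^ 2 - 3 * t + 3 - 3 * s + 2 * s ^ 2) + (0) * (2 * t ^ 2 - 3 * t + 2 - 3 * s + 2 * s ^ 2) + (3 * t - 1 - 2 * s) * (2 * t - 1 - s) + (2 * t ^ 2 - 1 - s) * (-4 + 4 * s) = 1
    linear_combination (8 * t - 7) * h
  · show (0) * (-2 * t + 4 - 2 * s) + (0) * (-2 * t + 4 - 2 * s) + (1) * (2 * t ^ 2 - 3 * t + 2 - 3 * s + 2 * s ^ 2) + (0) * (2 * t ^ 2 - 3 * t + 3 - 3 * s + 2 * s ^ 2) + (3 * t - 1 - 2 * s) * (2 * t - 1 - s) + (2 * t ^ 2 - 1 - s) * (-4 + 4 * s) = 0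
    linear_combination (8 * t - 7) * h
  · show (0) * (-2 * t ^ 2 + t - 6 + 7 * s) + (0) * (-2 * t ^ 2 + t - 6 + 7 * s) + (1) * (2 * t ^ 3 + 8 * t - 6 + 3 * s - 7 * s ^ 2) + (0) * (2 * t ^ 3 + 8 * t - 6 + 3 * s - 7 * s ^ 2) + (3 * t - 1 - 2 * s) * (2 * t ^ 2 + 2 * t + 8 + 4 * s) + (2 * t ^ 2 - 1 - s) * (-4 * t - 2 - 15 * s) = 0
    linear_combination (-34 * t + 12) * h
  · show (0) * (2 * t - 2) + (0) * (2 * t - 2) + (1) * (-2 * t ^ 2 + t - 1 + 2 * s) + (0) * (-2 * t ^ 2 + t - 1 + 2 * s) + (3 * t - 1 - 2 * s) * (-2 * t - 1) + (2 * t ^ 2 - 1 - s) * (4) = 0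
    linear_combination (4) * h
  · show (0) * (-5 * t + 11 - 5 * s) + (0) * (-5 * t + 10 - 5 * s) + (0) * (5 * t ^ 2 - 8 * t + 6 - 8 * s + 5 * s ^ 2) + (1) * (5 * t ^ 2 - 8 * t + 6 - 8 * s + 5 * s ^ 2) + (3 * t - 1 - 2 * s) * (5 * t - 3 - 3 * s) + (2 * t ^ 2 - 1 - s) * (-10 + 11 * s) = 0
    linear_combination (22 * t - 19) * h
  · show (0) * (-5 * t + 10 - 5 * s) + (0) * (-5 * t + 11 - 5 * s) + (0) * (5 * t ^ 2 - 8 * t + 6 - 8 * s + 5 * s ^ 2) + (1) * (5 * t ^ 2 - 8 * t + 6 - 8 * s + 5 * s ^ 2) + (3 * t - 1 - 2 * s) * (5 * t - 3 - 3 * s) + (2 * t ^ 2 - 1 - s) * (-10 + 11 * s) = 0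
    linear_combination (22 * t - 19) * h
  · show (0) * (-2 * t + 4 - 2 * s) + (0) * (-2 * t + 4 - 2 * s) + (0) * (2 * t ^ 2 - 3 * t + 3 - 3 * s + 2 * s ^ 2) + (1) * (2 * t ^ 2 - 3 * t + 2 - 3 * s + 2 * s ^ 2) + (3 * t - 1 - 2 * s) * (2 * t - 1 - s) + (2 * t ^ 2 - 1 - s) * (-4 + 4 * s) = 0
    linear_combination (8 * t - 7) * h
  · show (0) * (-2 * t + 4 - 2 * s) + (0) * (-2 * t + 4 - 2 * s) + (0) * (2 * t ^ 2 - 3 * t + 2 - 3 * s + 2 * s ^ 2) + (1) * (2 * t ^ 2 - 3 * t + 3 - 3 * s + 2 * s ^ 2) + (3 * t - 1 - 2 * s) * (2 * t - 1 - s) + (2 * t ^ 2 - 1 - s) * (-4 + 4 * s) = 1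
    linear_combination (8 * t - 7) * h
  · show (0) * (-2 * t ^ 2 + t - 6 + 7 * s) + (0) * (-2 * t ^ 2 + t - 6 + 7 * s) + (0) * (2 * t ^ 3 + 8 * t - 6 + 3 * s - 7 * s ^ 2) + (1) * (2 * t ^ 3 + 8 * t - 6 + 3 * s - 7 * s ^ 2) + (3 * t - 1 - 2 * s) * (2 * t ^ 2 + 2 * t + 8 + 4 * s) + (2 * t ^ 2 - 1 - s) * (-4 * t - 2 - 15 * s) = 0
    linear_combination (-34 * t + 12) * h
  · show (0) * (2 * t - 2) + (0) * (2 * t - 2) + (0) * (-2 * t ^ 2 + t - 1 + 2 * s) + (1) * (-2 * t ^ 2 + t - 1 + 2 * s) + (3 * t - 1 - 2 * s) * (-2 * t - 1) + (2 * t ^ 2 - 1 - s) * (4) = 0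
    linear_combination (4) * h
  · show (1) * (-5 * t + 11 - 5 * s) + (1) * (-5 * t + 10 - 5 * s) + (0) * (5 * t ^ 2 - 8 * t + 6 - 8 * s + 5 * s ^ 2) + (0) * (5 * t ^ 2 - 8 * t + 6 - 8 * s + 5 * s ^ 2) + (4) * (5 * t - 3 - 3 * s) + (t + 2) * (-10 + 11 * s) = 0
    linear_combination (11) * h
  · show (1) * (-5 * t + 10 - 5 * s) + (1) * (-5 * t + 11 - 5 * s) + (0) * (5 * t ^ 2 - 8 * t + 6 - 8 * s + 5 * s ^ 2) + (0) * (5 * t ^ 2 - 8 * t + 6 - 8 * s + 5 * s ^ 2) + (4) * (5 * t - 3 - 3 * s) + (t + 2) * (-10 + 11 * s) = 0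
    linear_combination (11) * h
  · show (1) * (-2 * t + 4 - 2 * s) + (1) * (-2 * t + 4 - 2 * s) + (0) * (2 * t ^ 2 - 3 * t + 3 - 3 * s + 2 * s ^ 2) + (0) * (2 * t ^ 2 - 3 * t + 2 - 3 * s + 2 * s ^ 2) + (4) * (2 * t - 1 - s) + (t + 2) * (-4 + 4 * s) = 0
    linear_combination (4) * h
  · show (1) * (-2 * t + 4 - 2 * s) + (1) * (-2 * t + 4 - 2 * s) + (0) * (2 * t ^ 2 - 3 * t + 2 - 3 * s + 2 * s ^ 2) + (0) * (2 * t ^ 2 - 3 * t + 3 - 3 * s + 2 * s ^ 2) + (4) * (2 * t - 1 - s) + (t + 2) * (-4 + 4 * s) = 0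
    linear_combination (4) * h
  · show (1) * (-2 * t ^ 2 + t - 6 + 7 * s) + (1) * (-2 * t ^ 2 + t - 6 + 7 * s) + (0) * (2 * t ^ 3 + 8 * t - 6 + 3 * s - 7 * s ^ 2) + (0) * (2 * t ^ 3 + 8 * t - 6 + 3 * s - 7 * s ^ 2) + (4) * (2 * t ^ 2 + 2 * t + 8 + 4 * s) + (t + 2) * (-4 * t - 2 - 15 * s) = 1
    linear_combination (-15) * h
  · show (1) * (2 * t - 2) + (1) * (2 * t - 2) + (0) * (-2 * t ^ 2 + t - 1 + 2 * s) + (0) * (-2 * t ^ 2 + t - 1 + 2 * s) + (4) * (-2 * t - 1) + (t + 2) * (4) = 0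
    linear_combination (0) * h
  · show (t + 3 + s) * (-5 * t + 11 - 5 * s) + (t + 3 + s) * (-5 * t + 10 - 5 * s) + (1 - s) * (5 * t ^ 2 - 8 * t + 6 - 8 * s + 5 * s ^ 2) + (1 - s) * (5 * t ^ 2 - 8 * t + 6 - 8 * s + 5 * s ^ 2) + (15 + 2 * s + 4 * s ^ 2) * (5 * t - 3 - 3 * s) + (4 * t + 8 + 2 * s + 2 * s ^ 2) * (-10 + 11 * s) = 0
    linear_combination (-10 * t + 50 + 20 * s) * h
  · show (t + 3 + s) * (-5 * t + 10 - 5 * s) + (t + 3 + s) * (-5 * t + 11 - 5 * s) + (1 - s) * (5 * t ^ 2 - 8 * t + 6 - 8 * s + 5 * s ^ 2) + (1 - s) * (5 * t ^ 2 - 8 * t + 6 - 8 * s + 5 * s ^ 2) + (15 + 2 * s + 4 * s ^ 2) * (5 * t - 3 - 3 * s) + (4 * t + 8 + 2 * s + 2 * s ^ 2) * (-10 + 11 * s) = 0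
    linear_combination (-10 * t + 50 + 20 * s) * h
  · show (t + 3 + s) * (-2 * t + 4 - 2 * s) + (t + 3 + s) * (-2 * t + 4 - 2 * s) + (1 - s) * (2 * t ^ 2 - 3 * t + 3 - 3 * s + 2 * s ^ 2) + (1 - s) * (2 * t ^ 2 - 3 * t + 2 - 3 * s + 2 * s ^ 2) + (15 + 2 * s + 4 * s ^ 2) * (2 * t - 1 - s) + (4 * t + 8 + 2 * s + 2 * s ^ 2) * (-4 + 4 * s) = 0
    linear_combination (-4 * t + 18 + 8 * s) * h
  · show (t + 3 + s) * (-2 * t + 4 - 2 * s) + (t + 3 + s) * (-2 * t + 4 - 2 * s) + (1 - s) * (2 * t ^ 2 - 3 * t + 2 - 3 * s + 2 * s ^ 2) + (1 - s) * (2 * t ^ 2 - 3 * t + 3 - 3 * s + 2 * s ^ 2) + (15 + 2 * s + 4 * s ^ 2) * (2 * t - 1 - s) + (4 * t + 8 + 2 * s + 2 * s ^ 2) * (-4 + 4 * s) = 0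
    linear_combination (-4 * t + 18 + 8 * s) * h
  · show (t + 3 + s) * (-2 * t ^ 2 + t - 6 + 7 * s) + (t + 3 + s) * (-2 * t ^ 2 + t - 6 + 7 * s) + (1 - s) * (2 * t ^ 3 + 8 * t - 6 + 3 * s - 7 * s ^ 2) + (1 - s) * (2 * t ^ 3 + 8 * t - 6 + 3 * s - 7 * s ^ 2) + (15 + 2 * s + 4 * s ^ 2) * (2 * t ^ 2 + 2 * t + 8 + 4 * s) + (4 * t + 8 + 2 * s + 2 * s ^ 2) * (-4 * t - 2 - 15 * s) = 0
    linear_combination (-4 * t ^ 2 + 8 * t * s - 56) * h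
  · show (t + 3 + s) * (2 * t - 2) + (t + 3 + s) * (2 * t - 2) + (1 - s) * (-2 * t ^ 2 + t - 1 + 2 * s) + (1 - s) * (-2 * t ^ 2 + t - 1 + 2 * s) + (15 + 2 * s + 4 * s ^ 2) * (-2 * t - 1) + (4 * t + 8 + 2 * s + 2 * s ^ 2) * (4) = 1
    linear_combination (4 * t - 2 - 8 * s) * h

/-- the form -/
def L4 (t s : R) : Matrix (Fin 4) (Fin 4) R :=
  !![t ^ 2 + t + 3 + s + s ^ 2, t ^ 2 + t + 2 + s + s ^ 2, t + 1 + s, t + s;
    t ^ 2 + t + 2 + s + s ^ 2, t ^ 2 + t + 3 + s + s ^ 2, t + s, t + 1 + s;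
    t + 1 + s, t + s, 2, 0;
    t + s, t + 1 + s, 0, 2]

/-- the inverse of the form -/
def L4i (t s : R) : Matrix (Fin 4) (Fin 4) R :=
  !![2, 0, -t - 1 - s, -t - s;
    0, 2, -t - s, -t - 1 - s;
    -t - 1 - s, -t - s, t ^ 2 + t + 3 + s + s ^ 2, t ^ 2 + t + 2 + s + s ^ 2;
    -t - s, -t - 1 - s, t ^ 2 + t + 2 + s + s ^ 2, t ^ 2 + t + 3 + s + s ^ 2]

theorem L4_mul_L4i {t s : R} (h : t * s = 1) : L4 t s * L4i t s = 1 := by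
  ext i j
  rw [Matrix.mul_apply, Fin.sum_univ_four]
  fin_cases i <;> fin_cases j
  · show (t ^ 2 + t + 3 + s + s ^ 2) * (2) + (t ^ 2 + t + 2 + s + s ^ 2) * (0) + (t + 1 + s) * (-t - 1 - s) + (t + s) * (-t - s) = 1
    linear_combination (-4) * h
  · show (t ^ 2 + t + 3 + s + s ^ 2) * (0) + (t ^ 2 + t + 2 + s + s ^ 2) * (2) + (t + 1 + s) * (-t - s) + (t + s) * (-t - 1 - s) = 0
    linear_combination (-4) * h
  · show (t ^ 2 + t + 3 + s + s ^ 2) * (-t - 1 - s) + (t ^ 2 + t + 2 + s + s ^ 2) * (-t - s) + (t + 1 + s) * (t ^ 2 + t + 3 + s + s ^ 2) + (t + s) * (t ^ 2 + t + 2 + s + s ^ 2) = 0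
    linear_combination (0) * h
  · show (t ^ 2 + t + 3 + s + s ^ 2) * (-t - s) + (t ^ 2 + t + 2 + s + s ^ 2) * (-t - 1 - s) + (t + 1 + s) * (t ^ 2 + t + 2 + s + s ^ 2) + (t + s) * (t ^ 2 + t + 3 + s + s ^ 2) = 0
    linear_combination (0) * h
  · show (t ^ 2 + t + 2 + s + s ^ 2) * (2) + (t ^ 2 + t + 3 + s + s ^ 2) * (0) + (t + s) * (-t - 1 - s) + (t + 1 + s) * (-t - s) = 0
    linear_combination (-4) * h
  · show (t ^ 2 + t + 2 + s + s ^ 2) * (0) + (t ^ 2 + t + 3 + s + s ^ 2) * (2) + (t + s) * (-t - s) + (t + 1 + s) * (-t - 1 - s) = 1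
    linear_combination (-4) * h
  · show (t ^ 2 + t + 2 + s + s ^ 2) * (-t - 1 - s) + (t ^ 2 + t + 3 + s + s ^ 2) * (-t - s) + (t + s) * (t ^ 2 + t + 3 + s + s ^ 2) + (t + 1 + s) * (t ^ 2 + t + 2 + s + s ^ 2) = 0
    linear_combination (0) * h
  · show (t ^ 2 + t + 2 + s + s ^ 2) * (-t - s) + (t ^ 2 + t + 3 + s + s ^ 2) * (-t - 1 - s) + (t + s) * (t ^ 2 + t + 2 + s + s ^ 2) + (t + 1 + s) * (t ^ 2 + t + 3 + s + s ^ 2) = 0
    linear_combination (0) * h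
  · show (t + 1 + s) * (2) + (t + s) * (0) + (2) * (-t - 1 - s) + (0) * (-t - s) = 0
    linear_combination (0) * h
  · show (t + 1 + s) * (0) + (t + s) * (2) + (2) * (-t - s) + (0) * (-t - 1 - s) = 0
    linear_combination (0) * h
  · show (t + 1 + s) * (-t - 1 - s) + (t + s) * (-t - s) + (2) * (t ^ 2 + t + 3 + s + s ^ 2) + (0) * (t ^ 2 + t + 2 + s + s ^ 2) = 1
    linear_combination (-4) * h
  · show (t + 1 + s) * (-t - s) + (t + s) * (-t - 1 - s) + (2) * (t ^ 2 + t + 2 + s + s ^ 2) + (0) * (t ^ 2 + t + 3 + s + s ^ 2) = 0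
    linear_combination (-4) * h
  · show (t + s) * (2) + (t + 1 + s) * (0) + (0) * (-t - 1 - s) + (2) * (-t - s) = 0
    linear_combination (0) * h
  · show (t + s) * (0) + (t + 1 + s) * (2) + (0) * (-t - s) + (2) * (-t - 1 - s) = 0
    linear_combination (0) * h
  · show (t + s) * (-t - 1 - s) + (t + 1 + s) * (-t - s) + (0) * (t ^ 2 + t + 3 + s + s ^ 2) + (2) * (t ^ 2 + t + 2 + s + s ^ 2) = 0
    linear_combination (-4) * h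
  · show (t + s) * (-t - s) + (t + 1 + s) * (-t - 1 - s) + (0) * (t ^ 2 + t + 2 + s + s ^ 2) + (2) * (t ^ 2 + t + 3 + s + s ^ 2) = 1
    linear_combination (-4) * h

/-- the augmentation of the form -/
def Q4 : Matrix (Fin 4) (Fin 4) ℤ :=
  !![7, 6, 3, 2; 6, 7, 2, 3; 3, 2, 2, 0; 2, 3, 0, 2]

/-- `H₂` -/
def H2 (t s : R) : Matrix (Fin 2) (Fin 2) R := !![0, t - 1; s - 1, 0]

theorem P6_mul_M6 {t s : R} (h : t * s = 1) : P6 t s * M6 t s = 1 :=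
  mul_eq_one_comm.1 (M6_mul_P6 h)

theorem P6_form {t s : R} (h : t * s = 1) :
    (P6 s t).transpose * L6 t s * P6 t s = G6 t s := by
  have h' : s * t = 1 := by rw [mul_comm, h]
  rw [← M6T_mul_N6 h, ← G6_mul_M6 h]
  have h1 : (P6 s t).transpose * ((M6 s t).transpose * (G6 t s * M6 t s)) * P6 t s
      = (M6 s t * P6 s t).transpose * G6 t s * (M6 t s * P6 t s) := by
    rw [Matrix.transpose_mul]
    simp only [Matrix.mul_assoc]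
  rw [h1, M6_mul_P6 h, M6_mul_P6 h', Matrix.transpose_one, Matrix.one_mul, Matrix.mul_one]

theorem L4_map {S : Type*} [CommRing S] (f : R →+* S) (t s : R) :
    (L4 t s).map f = L4 (f t) (f s) := by
  ext i j
  fin_cases i <;> fin_cases j <;> simp [L4, map_ofNat]

theorem P6_map {S : Type*} [CommRing S] (f : R →+* S) (t s : R) :
    (P6 t s).map f = P6 (f t) (f s) := by
  ext i j
  fin_cases i <;> fin_cases j <;> simp [P6, map_ofNat]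

theorem L4_transpose (t s : R) : (L4 s t).transpose = L4 t s := by
  ext i j
  fin_cases i <;> fin_cases j <;> simp [L4] <;> ring

/-- the index set of the sum of a form of rank four and `H₂` -/
def idx : Fin 4 ⊕ Fin 2 × Fin 1 ≃ Fin 6 :=
  (Equiv.sumCongr (Equiv.refl _) (Equiv.prodUnique (Fin 2) (Fin 1))).trans finSumFinEquiv

theorem blocks_L (t s : R) :
    Matrix.fromBlocks (L4 t s) 0 0 (Matrix.blockDiagonal fun _ : Fin 1 => H2 t s)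
      = (L6 t s).submatrix idx idx := by
  ext i j
  rcases i with i | ⟨i, i'⟩ <;> rcases j with j | ⟨j, j'⟩ <;> fin_cases i <;> fin_cases j <;>
    simp [Matrix.blockDiagonal_apply, idx, L4, L6, H2, finSumFinEquiv]
  · intro hn; exact absurd (Subsingleton.elim _ _) hn
  · rw [if_pos (Subsingleton.elim _ _)]; ring

theorem blocks_G (t s : R) :
    Matrix.fromBlocks (Q4.map (Int.castRingHom R)) 0 0
      (Matrix.blockDiagonal fun _ : Fin 1 => H2 t s)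
      = (G6 t s).submatrix idx idx := by
  ext i j
  rcases i with i | ⟨i, i'⟩ <;> rcases j with j | ⟨j, j'⟩ <;> fin_cases i <;> fin_cases j <;>
    simp [Matrix.blockDiagonal_apply, idx, Q4, G6, H2, finSumFinEquiv]
  · intro hn; exact absurd (Subsingleton.elim _ _) hn
  · rw [if_pos (Subsingleton.elim _ _)]; ring

end Pool.Agent.Y142.HT
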