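import Mathlib

/-!
# The Hermitian form of Hambleton and Teichner does not represent one

`htForm w w'` with `w' i` the conjugate of `w i` is the form with the matrix
`1 + x + x², x + x², 1 + x, x; …` over `ℤ[t, t⁻¹]`, `x = t + t⁻¹`.
-/

set_option autoImplicit false

namespace Pool.Agent.Y142.HT

open LaurentPolynomial

/-- the form of Hambleton and Teichner, `x = t + t⁻¹` -/
def htForm {R : Type*} [CommRing R] (x : R) (v w : Fin 4 → R) : R :=
  (1 + x + x ^ 2) * (v 0 * w 0 + v 1 * w 1) + (x + x ^ 2) * (v 0 * w 1 + v 1 * w 0)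
  + (1 + x) * (v 0 * w 2 + v 2 * w 0 + v 1 * w 3 + v 3 * w 1)
  + x * (v 0 * w 3 + v 3 * w 0 + v 1 * w 2 + v 2 * w 1) + 2 * (v 2 * w 2 + v 3 * w 3)

theorem htForm_lin {R : Type*} [CommRing R] (x y z : R) (a b : Fin 4 → R) :
    htForm x (fun i => a i + b i * y) (fun i => a i + b i * z)
      = htForm x a a + (y + z) * htForm x a b + y * z * htForm x b b := by
  unfold htForm; ring

theorem map_htForm {R S : Type*} [CommRing R] [CommRing S] (f : R →+* S) (x : R)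
    (v w : Fin 4 → R) :
    f (htForm x v w) = htForm (f x) (fun i => f (v i)) (fun i => f (w i)) := by
  unfold htForm; simp only [map_add, map_mul, map_one, map_pow, map_ofNat]

/-- evaluation of Laurent polynomials at a unit of `ℂ` -/
noncomputable def ev (u : ℂˣ) : ℤ[T;T⁻¹] →+* ℂ := eval₂ (Int.castRingHom ℂ) u

theorem ev_invert (u : ℂˣ) (f : ℤ[T;T⁻¹]) : ev u (invert f) = ev u⁻¹ f := by
  induction f using LaurentPolynomial.induction_on' with
  | add p q hp hq => rw [map_add, map_add, map_add, hp, hq]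
  | C_mul_T n a =>
    rw [map_mul, invert_C, invert_T, map_mul, map_mul]
    congr 1
    · simp [ev]
    · simp [ev, eval₂_T]

/-- for a fifth root of unity `z ≠ 1` and `x = z + z⁻¹` each element of `ℤ[z]` is of the form
`c₀ + c₁ x + (c₂ + c₃ x) z` -/
theorem exists_rep (f : ℤ[T;T⁻¹]) : ∃ c0 c1 c2 c3 : ℤ, ∀ u : ℂˣ, ∀ x : ℂ, x = u + (u⁻¹ : ℂˣ) →
    x ^ 2 = 1 - x → ev u f = c0 + c1 * x + (c2 + c3 * x) * u := by
  induction f using LaurentPolynomial.induction_on with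
  | h_C a => exact ⟨a, 0, 0, 0, fun u x _ _ => by simp [ev]⟩
  | @h_add p q hp hq =>
    obtain ⟨a0, a1, a2, a3, ha⟩ := hp
    obtain ⟨b0, b1, b2, b3, hb⟩ := hq
    refine ⟨a0 + b0, a1 + b1, a2 + b2, a3 + b3, fun u x hx hx2 => ?_⟩
    rw [map_add, ha u x hx hx2, hb u x hx hx2]
    push_cast
    ring
  | h_C_mul_T n a h =>
    obtain ⟨a0, a1, a2, a3, ha⟩ := h
    -- (A + B z) z = -B + (A + B x) z, B = a2 + a3 x
    refine ⟨-a2, -a3, a0 + a3, a1 + a2 - a3, fun u x hx hx2 => ?_⟩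
    have h1 : (C a * T (n + 1) : ℤ[T;T⁻¹]) = C a * T n * T 1 := by
      rw [T_add, mul_assoc]
    have h2 : ev u (T 1) = u := by simp [ev, eval₂_T]
    have h3 : (u : ℂ) ^ 2 = x * u - 1 := by
      rw [hx]
      have := u.mul_inv
      linear_combination (-1 : ℂ) * this
    rw [h1, map_mul, ha u x hx hx2, h2]
    push_cast
    linear_combination (a2 + a3 * x : ℂ) * h3 + (a3 * u : ℂ) * hx2
  | h_C_mul_T_Z n a h =>
    obtain ⟨a0, a1, a2, a3, ha⟩ := h
    -- (A + B z)(x - z) = A x + B - A z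
    refine ⟨a1 + a2, a0 - a1 + a3, -a0, -a1, fun u x hx hx2 => ?_⟩
    have h1 : (C a * T (-(n : ℤ) - 1) : ℤ[T;T⁻¹]) = C a * T (-n) * T (-1) := by
      rw [sub_eq_add_neg, T_add, mul_assoc]
    have h2 : ev u (T (-1)) = x - u := by
      simp [ev, eval₂_T, hx]
    have h3 : (u : ℂ) ^ 2 = x * u - 1 := by
      rw [hx]
      have := u.mul_inv
      linear_combination (-1 : ℂ) * this
    rw [h1, map_mul, ha u x hx hx2, h2]
    push_cast
    linear_combination (-(a2 + a3 * x) : ℂ) * h3 + (a1 : ℂ) * hx2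

/-- functions which are of the form `A + B x` with integers `A`, `B` at the roots of `x² = 1 - x` -/
def Rep (g : ℝ → ℝ) : Prop := ∃ A B : ℤ, ∀ x : ℝ, x ^ 2 = 1 - x → g x = A + B * x

theorem Rep.lin (m n : ℤ) : Rep fun x => m + n * x := ⟨m, n, fun _ _ => rfl⟩

theorem Rep.id : Rep fun x => x := ⟨0, 1, fun _ _ => by push_cast; ring⟩

theorem Rep.one : Rep fun _ => 1 := ⟨1, 0, fun _ _ => by push_cast; ring⟩

theorem Rep.add {f g : ℝ → ℝ} (hf : Rep f) (hg : Rep g) : Rep fun x => f x + g x := by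
  obtain ⟨a, b, h⟩ := hf
  obtain ⟨c, d, h'⟩ := hg
  exact ⟨a + c, b + d, fun x hx => by beta_reduce; rw [h x hx, h' x hx]; push_cast; ring⟩

theorem Rep.mul {f g : ℝ → ℝ} (hf : Rep f) (hg : Rep g) : Rep fun x => f x * g x := by
  obtain ⟨a, b, h⟩ := hf
  obtain ⟨c, d, h'⟩ := hg
  refine ⟨a * c + b * d, a * d + b * c - b * d, fun x hx => ?_⟩
  beta_reduce
  rw [h x hx, h' x hx]
  push_cast
  linear_combination (b * d : ℝ) * hx

/-- half of the form at the fifth roots of unity -/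
def qf (x : ℝ) (a : Fin 4 → ℝ) : ℝ :=
  a 0 * a 0 + a 1 * a 1 + a 0 * a 1 + (1 + x) * (a 0 * a 2 + a 1 * a 3)
    + x * (a 0 * a 3 + a 1 * a 2) + a 2 * a 2 + a 3 * a 3

def bf (x : ℝ) (a b : Fin 4 → ℝ) : ℝ :=
  (a 0 * b 0 + a 1 * b 1) + (a 0 * b 0 + a 1 * b 1) + (a 0 * b 1 + a 1 * b 0)
  + (1 + x) * (a 0 * b 2 + a 2 * b 0 + a 1 * b 3 + a 3 * b 1)
  + x * (a 0 * b 3 + a 3 * b 0 + a 1 * b 2 + a 2 * b 1)
  + ((a 2 * b 2 + a 3 * b 3) + (a 2 * b 2 + a 3 * b 3))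

theorem rep_qf (m n : Fin 4 → ℤ) : Rep fun x => qf x (fun i => m i + n i * x) := by
  have h : ∀ i, Rep fun x => (m i : ℝ) + n i * x := fun i => Rep.lin _ _
  unfold qf
  exact ((((((h 0).mul (h 0)).add ((h 1).mul (h 1))).add ((h 0).mul (h 1))).add
    ((Rep.one.add Rep.id).mul (((h 0).mul (h 2)).add ((h 1).mul (h 3))))).add
    (Rep.id.mul (((h 0).mul (h 3)).add ((h 1).mul (h 2))))).add ((h 2).mul (h 2)) |>.add
    ((h 3).mul (h 3))

theorem rep_bf (m n p q : Fin 4 → ℤ) :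
    Rep fun x => bf x (fun i => m i + n i * x) (fun i => p i + q i * x) := by
  have h : ∀ i, Rep fun x => (m i : ℝ) + n i * x := fun i => Rep.lin _ _
  have k : ∀ i, Rep fun x => (p i : ℝ) + q i * x := fun i => Rep.lin _ _
  unfold bf
  have h1 := ((h 0).mul (k 0)).add ((h 1).mul (k 1))
  have h2 := ((h 0).mul (k 1)).add ((h 1).mul (k 0))
  have h3 := ((((h 0).mul (k 2)).add ((h 2).mul (k 0))).add ((h 1).mul (k 3))).add ((h 3).mul (k 1))
  have h4 := ((((h 0).mul (k 3)).add ((h 3).mul (k 0))).add ((h 1).mul (k 2))).add ((h 2).mul (k 1))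
  have h5 := ((h 2).mul (k 2)).add ((h 3).mul (k 3))
  exact ((((h1.add h1).add h2).add ((Rep.one.add Rep.id).mul h3)).add (Rep.id.mul h4)).add
    (h5.add h5)

theorem htForm_eq {x : ℝ} (hx : x ^ 2 = 1 - x) (a b : Fin 4 → ℝ) : htForm x a b = bf x a b := by
  unfold htForm bf
  linear_combination (a 0 * b 0 + a 1 * b 1 + (a 0 * b 1 + a 1 * b 0)) * hx

theorem bf_self (x : ℝ) (a : Fin 4 → ℝ) : bf x a a = 2 * qf x a := by
  unfold bf qf; ring

theorem qf_sos {x : ℝ} (hx : x ^ 2 = 1 - x) (a : Fin 4 → ℝ) :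
    2 * qf x a = ((a 2 - a 3) + (a 0 - a 1) / 2) ^ 2 + (a 0 - a 1) ^ 2 / 4
      + ((a 2 + a 3) + (1 + 2 * x) / 2 * (a 0 + a 1)) ^ 2 + (a 0 + a 1) ^ 2 / 4 := by
  unfold qf
  linear_combination (-(a 0 + a 1) ^ 2 : ℝ) * hx

theorem qf_add {x : ℝ} (a b : Fin 4 → ℝ) :
    qf x a + qf x b + bf x a b = qf x (fun i => a i + b i) := by
  unfold qf bf; ring

theorem qf_sub {x : ℝ} (a b : Fin 4 → ℝ) :
    qf x a + qf x b - bf x a b = qf x (fun i => a i - b i) := by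
  unfold qf bf; ring

theorem qf_nonneg {x : ℝ} (hx : x ^ 2 = 1 - x) (a : Fin 4 → ℝ) : 0 ≤ qf x a := by
  have := qf_sos hx a
  nlinarith [sq_nonneg ((a 2 - a 3) + (a 0 - a 1) / 2), sq_nonneg (a 0 - a 1),
    sq_nonneg ((a 2 + a 3) + (1 + 2 * x) / 2 * (a 0 + a 1)), sq_nonneg (a 0 + a 1)]

theorem eq_zero_of_qf {x : ℝ} (hx : x ^ 2 = 1 - x) (a : Fin 4 → ℝ) (h : qf x a = 0) :
    ∀ i, a i = 0 := by
  have h0 := qf_sos hx a
  rw [h, mul_zero] at h0
  have h1 : (a 0 - a 1) ^ 2 = 0 := by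
    nlinarith [sq_nonneg ((a 2 - a 3) + (a 0 - a 1) / 2), sq_nonneg (a 0 - a 1),
      sq_nonneg ((a 2 + a 3) + (1 + 2 * x) / 2 * (a 0 + a 1)), sq_nonneg (a 0 + a 1)]
  have h2 : (a 0 + a 1) ^ 2 = 0 := by
    nlinarith [sq_nonneg ((a 2 - a 3) + (a 0 - a 1) / 2), sq_nonneg (a 0 - a 1),
      sq_nonneg ((a 2 + a 3) + (1 + 2 * x) / 2 * (a 0 + a 1)), sq_nonneg (a 0 + a 1)]
  have h3 : ((a 2 - a 3) + (a 0 - a 1) / 2) ^ 2 = 0 := by
    nlinarith [sq_nonneg ((a 2 - a 3) + (a 0 - a 1) / 2), sq_nonneg (a 0 - a 1),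
      sq_nonneg ((a 2 + a 3) + (1 + 2 * x) / 2 * (a 0 + a 1)), sq_nonneg (a 0 + a 1)]
  have h4 : ((a 2 + a 3) + (1 + 2 * x) / 2 * (a 0 + a 1)) ^ 2 = 0 := by
    nlinarith [sq_nonneg ((a 2 - a 3) + (a 0 - a 1) / 2), sq_nonneg (a 0 - a 1),
      sq_nonneg ((a 2 + a 3) + (1 + 2 * x) / 2 * (a 0 + a 1)), sq_nonneg (a 0 + a 1)]
  have h1 := pow_eq_zero_iff (two_ne_zero) |>.1 h1
  have h2 := pow_eq_zero_iff (two_ne_zero) |>.1 h2
  have h3 := pow_eq_zero_iff (two_ne_zero) |>.1 h3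
  have h4 := pow_eq_zero_iff (two_ne_zero) |>.1 h4
  rw [h1] at h3
  rw [h2] at h4
  intro i
  fin_cases i
  · simp only [Fin.zero_eta]; linarith
  · simp only [Fin.mk_one]; linarith
  · simp only [Fin.reduceFinMk]; linarith
  · simp only [Fin.reduceFinMk]; linarith

theorem no_int (m n p q : Fin 4 → ℤ)
    (H : ∀ x : ℝ, x ^ 2 = 1 - x → bf x (fun i => m i + n i * x) (fun i => m i + n i * x)
      + bf x (fun i => p i + q i * x) (fun i => p i + q i * x)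
      + x * bf x (fun i => m i + n i * x) (fun i => p i + q i * x) = 1) : False := by
  obtain ⟨A0, A1, hA⟩ := rep_qf m n
  obtain ⟨B0, B1, hB⟩ := rep_qf p q
  obtain ⟨R0, R1, hR⟩ := rep_bf m n p q
  beta_reduce at hA hB hR
  obtain ⟨r, hr⟩ : ∃ r : ℝ, r = √5 := ⟨_, rfl⟩
  have hr2 : r ^ 2 = 5 := by rw [hr]; exact Real.sq_sqrt (by norm_num)
  have hr0 : 0 < r := by rw [hr]; exact Real.sqrt_pos.2 (by norm_num)
  have hr3 : 2 < r := by nlinarith
  have hirr : Irrational r := by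
    rw [hr]
    exact Nat.Prime.irrational_sqrt (p := 5) (by norm_num)
  have hx1 : ((r - 1) / 2) ^ 2 = 1 - (r - 1) / 2 := by nlinarith
  have hx2 : ((-r - 1) / 2) ^ 2 = 1 - (-r - 1) / 2 := by nlinarith
  have key : ∀ x : ℝ, x ^ 2 = 1 - x →
      (2 * (A0 + B0) + R1 - 1 : ℝ) + (2 * (A1 + B1) + R0 - R1) * x = 0 := by
    intro x hx
    have h := H x hx
    rw [bf_self, bf_self, hA x hx, hB x hx, hR x hx] at h
    linear_combination h - (R1 : ℝ) * hx
  have k1 := key _ hx1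
  have k2 := key _ hx2
  have e1 : (2 * (A1 + B1) + R0 - R1 : ℝ) = 0 := by
    have : (2 * (A1 + B1) + R0 - R1 : ℝ) * r = 0 := by linear_combination k1 - k2
    exact (mul_eq_zero.1 this).resolve_right hr0.ne'
  have e2 : (2 * (A0 + B0) + R1 - 1 : ℝ) = 0 := by
    rw [e1, zero_mul, add_zero] at k1
    exact k1
  have pos : ∀ x : ℝ, x ^ 2 = 1 - x →
      0 ≤ ((A0 + B0 : ℝ) + (A1 + B1) * x) + (R0 + R1 * x) ∧
      0 ≤ ((A0 + B0 : ℝ) + (A1 + B1) * x) - (R0 + R1 * x) := by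
    intro x hx
    have h1 := qf_nonneg hx (fun i => (m i + n i * x : ℝ) + (p i + q i * x))
    have h2 := qf_nonneg hx (fun i => (m i + n i * x : ℝ) - (p i + q i * x))
    rw [← qf_add (fun i => (m i + n i * x : ℝ)) (fun i => (p i + q i * x : ℝ)),
      hA x hx, hB x hx, hR x hx] at h1
    rw [← qf_sub (fun i => (m i + n i * x : ℝ)) (fun i => (p i + q i * x : ℝ)),
      hA x hx, hB x hx, hR x hx] at h2
    constructor
    · linarith
    · linarith
  obtain ⟨p1, p2⟩ := pos _ hx1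
  obtain ⟨p3, p4⟩ := pos _ hx2
  obtain ⟨S0, hS0⟩ : ∃ S0 : ℤ, S0 = A0 + B0 := ⟨_, rfl⟩
  obtain ⟨S1, hS1⟩ : ∃ S1 : ℤ, S1 = A1 + B1 := ⟨_, rfl⟩
  have hS0' : (S0 : ℝ) = A0 + B0 := by rw [hS0]; push_cast; ring
  have hS1' : (S1 : ℝ) = A1 + B1 := by rw [hS1]; push_cast; ring
  rw [← hS0', ← hS1'] at p1 p2 p3 p4
  rw [← hS1'] at e1
  rw [← hS0'] at e2
  have hR1 : (R1 : ℝ) = 1 - 2 * S0 := by linarith
  have hR0 : (R0 : ℝ) = 1 - 2 * S0 - 2 * S1 := by linarith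
  rw [hR0, hR1] at p1 p2 p3 p4
  -- linear inequalities in `r`
  have i1 : 5 * (S1 : ℝ) ≤ 1 := by nlinarith
  have i2 : (-1 : ℝ) ≤ S1 := by nlinarith
  have j1 : S1 ≤ 0 := by
    have : (S1 : ℝ) < 1 := by linarith
    have : S1 < 1 := by exact_mod_cast this
    omega
  have j2 : -1 ≤ S1 := by exact_mod_cast i2
  have hcase : S1 = 0 ∨ S1 = -1 := by omega
  have hS : S0 = 1 ∧ S1 = -1 := by
    rcases hcase with h0 | h0
    · exfalso
      rw [h0] at p1 p2 p3 p4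
      push_cast at p1 p2 p3 p4
      have h1 : (0 : ℝ) < S0 := by nlinarith
      have h1' : 0 < S0 := by exact_mod_cast h1
      have h2 : (1 : ℝ) ≤ S0 := by exact_mod_cast h1'
      nlinarith
    · refine ⟨?_, h0⟩
      rw [h0] at p1 p2 p3 p4
      push_cast at p1 p2 p3 p4
      have h1 : (0 : ℝ) < S0 := by nlinarith
      have h2 : (S0 : ℝ) < 2 := by nlinarith
      have h1' : 0 < S0 := by exact_mod_cast h1
      have h2' : S0 < 2 := by exact_mod_cast h2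
      omega
  obtain ⟨s0, s1⟩ := hS
  have hA' := hA _ hx1
  have hB' := hB _ hx1
  have hR' := hR _ hx1
  rw [hR0, hR1, s0, s1] at hR'
  rw [s0] at hS0'
  rw [s1] at hS1'
  push_cast at hS0' hS1' hR'
  have hz : qf ((r - 1) / 2) (fun i => (m i + n i * ((r - 1) / 2) : ℝ)
      - (p i + q i * ((r - 1) / 2))) = 0 := by
    rw [← qf_sub, hA', hB', hR']
    linear_combination (-1 : ℝ) * hS0' - (r - 1) / 2 * hS1'
  have hz' := eq_zero_of_qf hx1 _ hz
  have hab : qf ((r - 1) / 2) (fun i => (p i + q i * ((r - 1) / 2) : ℝ))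
      = qf ((r - 1) / 2) (fun i => (m i + n i * ((r - 1) / 2) : ℝ)) := by
    congr 1
    funext i
    linarith [hz' i]
  rw [hA', hB'] at hab
  -- `2 (A0 + A1 x) = 1 - x`
  have hfin : (1 + 2 * A1 : ℝ) * r = 3 + 2 * A1 - 4 * A0 := by
    linear_combination -2 * hS0' - (r - 1) * hS1' - 2 * hab
  have hne : (1 + 2 * A1 : ℤ) ≠ 0 := by omega
  have hne' : (1 + 2 * A1 : ℝ) ≠ 0 := by exact_mod_cast hne
  apply hirr
  refine ⟨(3 + 2 * A1 - 4 * A0 : ℚ) / (1 + 2 * A1), ?_⟩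
  push_cast
  rw [div_eq_iff hne']
  linear_combination -hfin

/-- the form of Hambleton and Teichner does not represent one -/
theorem htForm_ne_one (w : Fin 4 → ℤ[T;T⁻¹]) :
    htForm (T 1 + T (-1)) (fun i => invert (w i)) w ≠ 1 := by
  intro h
  choose c0 c1 c2 c3 hc using fun i => exists_rep (w i)
  refine no_int c0 c1 c2 c3 fun x hx => ?_
  -- a complex number `z` with `z + z⁻¹ = x`
  obtain ⟨z, hz⟩ : ∃ z : ℂ, z ^ 2 - x * z + 1 = 0 := by
    have := IsAlgClosed.exists_root (Polynomial.X ^ 2 - Polynomial.C (x : ℂ) * Polynomial.X + 1)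
      (by
        have : (Polynomial.X ^ 2 - Polynomial.C (x : ℂ) * Polynomial.X + 1).degree = 2 := by
          compute_degree!
        rw [this]; decide)
    obtain ⟨z, hz⟩ := this
    exact ⟨z, by simpa [Polynomial.IsRoot] using hz⟩
  have hz0 : z ≠ 0 := by rintro rfl; simp at hz
  obtain ⟨u, hu⟩ : ∃ u : ℂˣ, (u : ℂ) = z := ⟨Units.mk0 z hz0, rfl⟩
  have hzi : ((u⁻¹ : ℂˣ) : ℂ) * z = 1 := by rw [← hu]; exact u.inv_mul
  obtain ⟨y, hy⟩ : ∃ y : ℂ, y = ((u⁻¹ : ℂˣ) : ℂ) := ⟨_, rfl⟩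
  rw [← hy] at hzi
  have hxz : (x : ℂ) = z + y := by
    apply mul_right_cancel₀ hz0
    linear_combination (-1 : ℂ) * hz - hzi
  have hx' : (x : ℂ) ^ 2 = 1 - x := by exact_mod_cast hx
  have e1 : ∀ i, ev u (w i) = (c0 i + c1 i * x) + (c2 i + c3 i * x) * z := fun i => by
    rw [hc i u x (by rw [hxz, hu, hy]) hx', hu]
  have e2 : ∀ i, ev u (invert (w i)) = (c0 i + c1 i * x) + (c2 i + c3 i * x) * y := fun i => by
    rw [ev_invert, hc i u⁻¹ x (by rw [hxz, inv_inv, hu, hy, add_comm]) hx', hy]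
  have h1 := congrArg (ev u) h
  have eT : ev u (T 1 + T (-1)) = x := by
    rw [map_add, hxz, ← hu, hy]
    simp [ev, eval₂_T]
  rw [map_htForm, eT, map_one, funext e1, funext e2, htForm_lin, hzi, add_comm y z, ← hxz] at h1
  rw [← htForm_eq hx, ← htForm_eq hx, ← htForm_eq hx]
  have h2 := map_htForm (Complex.ofRealHom) x (fun i => (c0 i + c1 i * x : ℝ))
    (fun i => (c0 i + c1 i * x : ℝ))
  have h3 := map_htForm (Complex.ofRealHom) x (fun i => (c2 i + c3 i * x : ℝ))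
    (fun i => (c2 i + c3 i * x : ℝ))
  have h4 := map_htForm (Complex.ofRealHom) x (fun i => (c0 i + c1 i * x : ℝ))
    (fun i => (c2 i + c3 i * x : ℝ))
  simp only [Complex.ofRealHom_eq_coe, Complex.ofReal_add, Complex.ofReal_mul,
    Complex.ofReal_intCast] at h2 h3 h4
  rw [← h2, ← h3, ← h4] at h1
  have h5 : ((htForm x (fun i => (c0 i + c1 i * x : ℝ)) (fun i => (c0 i + c1 i * x : ℝ))
      + htForm x (fun i => (c2 i + c3 i * x : ℝ)) (fun i => (c2 i + c3 i * x : ℝ))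
      + x * htForm x (fun i => (c0 i + c1 i * x : ℝ)) (fun i => (c2 i + c3 i * x : ℝ)) : ℝ) : ℂ)
      = ((1 : ℝ) : ℂ) := by
    push_cast
    linear_combination h1
  exact Complex.ofReal_injective h5

end Pool.Agent.Y142.HT
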